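import Pool.Agent.helper71.DSW.SpecB

/-! # MP_a87880, row LNK -/

set_option autoImplicit false

namespace Pool.Agent.DSW

open Equiv Finset Function Pool.Agent.helper48.PP
open scoped ENNReal Classical

lemma LNK_count {k l : ℕ} (σ : Perm (Fin k)) (τ : Perm (Fin l)) (n : ℕ)
    (h : avCount n σ ≤ avCount n τ) :
    (Finset.univ.filter fun w : Perm (Fin n) => Contains w τ).card ≤
      (Finset.univ.filter fun w : Perm (Fin n) => Contains w σ).card := by
  have h1 : ∀ (m : ℕ) (p : Perm (Fin m)),
      (Finset.univ.filter fun w : Perm (Fin n) => Contains w p).card + avCount n p =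
        (Finset.univ : Finset (Perm (Fin n))).card := by
    intro m p
    unfold avCount
    exact Finset.card_filter_add_card_filter_not _
  have h2 := h1 k σ
  have h3 := h1 l τ
  omega

lemma LNK_Pr {γ : Type} (C : Finset γ) (p : ℝ) (A : Finset γ → Prop) [DecidablePred A] :
    Pr C p A = ∑ S ∈ C.powerset.filter A, p ^ S.card * (1 - p) ^ (C.card - S.card) := by
  unfold Pr
  apply Finset.sum_congr _ (fun _ _ => rfl)
  ext S
  simp only [Finset.mem_filter]

lemma LNK_fib {k : ℕ} (τ : Perm (Fin k)) (M M' : ℕ) (p : ℝ) :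
    Pr (Finset.range M ×ˢ Finset.range M') p (fun S => GP S ∧ Has τ S) =
      ∑ n ∈ Finset.range (M * M' + 1), p ^ n * (1 - p) ^ (M * M' - n) *
        (((Finset.range M ×ˢ Finset.range M').powerset.filter
          fun S => GP S ∧ S.card = n ∧ Has τ S).card : ℝ) := by
  have hc : (Finset.range M ×ˢ Finset.range M').card = M * M' := by
    rw [Finset.card_product, Finset.card_range, Finset.card_range]
  rw [LNK_Pr, hc, ← Finset.sum_fiberwise_of_maps_to (g := Finset.card) (t := Finset.range (M * M' + 1))]
  · apply Finset.sum_congr rfl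
    intro n _
    have e : (((Finset.range M ×ˢ Finset.range M').powerset.filter
        (fun S => GP S ∧ Has τ S)).filter fun S => S.card = n) =
        (Finset.range M ×ˢ Finset.range M').powerset.filter
          fun S => GP S ∧ S.card = n ∧ Has τ S := by
      rw [Finset.filter_filter]
      apply Finset.filter_congr
      intro S _
      tauto
    rw [e, Finset.sum_congr rfl (g := fun _ => p ^ n * (1 - p) ^ (M * M' - n))
      (fun S hS => by rw [(Finset.mem_filter.1 hS).2.2.1]), Finset.sum_const, nsmul_eq_mul,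
      mul_comm]
  · intro S hS
    have h1 := Finset.mem_powerset.1 (Finset.mem_filter.1 hS).1
    have h2 := Finset.card_le_card h1
    rw [hc] at h2
    rw [Finset.mem_range]
    omega

theorem LNK (hGPC : GPC_stmt) : LNK_stmt := by
  intro k l σ τ h M M' p h0 h1
  have hq : 0 ≤ 1 - p := by linarith
  have step1 : Pr (Finset.range M ×ˢ Finset.range M') p (Has τ) ≤
      Pr (Finset.range M ×ˢ Finset.range M') p (fun S => GP S ∧ Has τ S) +
      Pr (Finset.range M ×ˢ Finset.range M') p (fun S => ¬ GP S) := by
    unfold Pr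
    rw [Finset.sum_filter, Finset.sum_filter, Finset.sum_filter, ← Finset.sum_add_distrib]
    apply Finset.sum_le_sum
    intro S _
    have hW : 0 ≤ p ^ S.card * (1 - p) ^ ((Finset.range M ×ˢ Finset.range M').card - S.card) :=
      mul_nonneg (pow_nonneg h0 _) (pow_nonneg hq _)
    by_cases hg : GP S
    · by_cases ht : Has τ S
      · rw [if_pos ht, if_pos ⟨hg, ht⟩, if_neg (not_not.2 hg), add_zero]
      · rw [if_neg ht, if_neg (fun h => ht h.2), if_neg (not_not.2 hg), add_zero]
    · rw [if_neg (fun h : GP S ∧ Has τ S => hg h.1), if_pos hg, zero_add]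
      split_ifs
      · exact le_refl _
      · exact hW
  have step2 : Pr (Finset.range M ×ˢ Finset.range M') p (fun S => GP S ∧ Has τ S) ≤
      Pr (Finset.range M ×ˢ Finset.range M') p (fun S => GP S ∧ Has σ S) := by
    rw [LNK_fib, LNK_fib]
    apply Finset.sum_le_sum
    intro n _
    apply mul_le_mul_of_nonneg_left _ (mul_nonneg (pow_nonneg h0 _) (pow_nonneg hq _))
    rw [hGPC, hGPC]
    exact_mod_cast Nat.mul_le_mul_left _ (LNK_count σ τ n (h n))
  have step3 : Pr (Finset.range M ×ˢ Finset.range M') p (fun S => GP S ∧ Has σ S) ≤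
      Pr (Finset.range M ×ˢ Finset.range M') p (Has σ) := by
    rw [LNK_Pr, LNK_Pr]
    apply Finset.sum_le_sum_of_subset_of_nonneg
    · intro S hS
      rw [Finset.mem_filter] at hS ⊢
      exact ⟨hS.1, hS.2.2⟩
    · intro S _ _
      exact mul_nonneg (pow_nonneg h0 _) (pow_nonneg hq _)
  linarith

end Pool.Agent.DSW
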