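import Pool.Agent.helper71.DSW.SpecC

/-! # MP_a87880, row BER -/

set_option autoImplicit false

namespace Pool.Agent.DSW

open Equiv Finset Function Pool.Agent.helper48.PP
open scoped ENNReal Classical

lemma BER_one (q : ℝ) (h0 : 0 ≤ q) (h1 : q ≤ 1) (n : ℕ) : 1 ≤ (1 - q) ^ n + q * n := by
  have h2 := one_add_mul_le_pow (a := -q) (by linarith) n
  have e : (1 + -q) = 1 - q := by ring
  rw [e] at h2
  linarith [mul_comm (n : ℝ) (-q)]

theorem BER (hGEO : GEO_stmt) : BER_stmt := by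
  intro ι _ H n q B _ h0 h1 hB hE hw
  have h2 : ∀ x : ι → ℕ, (1 : ℝ≥0∞) ≤ ENNReal.ofReal ((1 - q) ^ n x) +
      ENNReal.ofReal q * (n x : ℝ≥0∞) := by
    intro x
    have h3 := BER_one q h0 h1 (n x)
    have h4 : ENNReal.ofReal q * (n x : ℝ≥0∞) = ENNReal.ofReal (q * n x) := by
      rw [ENNReal.ofReal_mul h0, ENNReal.ofReal_natCast]
    rw [h4, ← ENNReal.ofReal_add (pow_nonneg (by linarith) _) (mul_nonneg h0 (Nat.cast_nonneg _)),
      ← ENNReal.ofReal_one]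
    exact ENNReal.ofReal_le_ofReal h3
  have h5 : (1 : ℝ≥0∞) ≤ Ex H (fun x => ENNReal.ofReal ((1 - q) ^ n x)) +
      ENNReal.ofReal q * Ex H (fun x => (n x : ℝ≥0∞)) := by
    unfold Ex
    rw [← ENNReal.tsum_mul_left, ← ENNReal.tsum_add, ← hw]
    apply ENNReal.tsum_le_tsum
    intro x
    calc ∏ i, wt H (x i) = (∏ i, wt H (x i)) * 1 := (mul_one _).symm
      _ ≤ (∏ i, wt H (x i)) * (ENNReal.ofReal ((1 - q) ^ n x) +
          ENNReal.ofReal q * (n x : ℝ≥0∞)) := by gcongr; exact h2 x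
      _ = _ := by ring
  have h6 : (1 : ℝ≥0∞) ≤ Ex H (fun x => ENNReal.ofReal ((1 - q) ^ n x)) +
      ENNReal.ofReal (q * B) := by
    refine h5.trans ?_
    rw [ENNReal.ofReal_mul h0]
    gcongr
  rw [ENNReal.ofReal_sub _ (mul_nonneg h0 hB), ENNReal.ofReal_one, tsub_le_iff_right]
  exact h6

end Pool.Agent.DSW
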