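import Pool.Agent.helper71.DSW.SpecA

/-! # MP_a87880, row FS1 -/

set_option autoImplicit false

namespace Pool.Agent.DSW

open Equiv Finset Function Pool.Agent.helper48.PP
open scoped ENNReal Classical

theorem FS1 : FS1_stmt := by
  intro k l τ hkl
  have hall : ∀ (n m : ℕ) (p : Perm (Fin m)), n < m →
      avCount n p = (Finset.univ : Finset (Perm (Fin n))).card := by
    intro n m p hnm
    unfold avCount
    rw [Finset.filter_true_of_mem]
    intro w _
    exact not_contains_of_lt hnm w p
  refine ⟨?_, ?_⟩
  · rw [hall k l τ hkl]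
    unfold avCount
    apply Finset.card_lt_card
    rw [Finset.filter_ssubset]
    refine ⟨1, Finset.mem_univ _, ?_⟩
    intro h
    apply h
    exact ⟨id, strictMono_id, fun s t => Iff.rfl⟩
  · intro n hn
    rw [hall n k 1 hn, hall n l τ (by omega)]

end Pool.Agent.DSW
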