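import Pool.Agent.helper71.DSW.SpecB

/-! # MP_a87880, row GPB -/

set_option autoImplicit false

namespace Pool.Agent.DSW

open Equiv Finset Function Pool.Agent.helper48.PP
open scoped ENNReal Classical

lemma GPB_zero {γ : Type} (C : Finset γ) (p : ℝ) (A : Finset γ → Prop) (h : ∀ S ⊆ C, ¬ A S) :
    Pr C p A = 0 := by
  unfold Pr
  apply Finset.sum_eq_zero
  intro S hS
  rw [Finset.mem_filter] at hS
  exact absurd hS.2 (h S (Finset.mem_powerset.1 hS.1))

lemma GPB_union (hPRL : PRL_stmt) {γ ι : Type} (C : Finset γ) (p : ℝ) (h0 : 0 ≤ p) (h1 : p ≤ 1)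
    (B : ι → Finset γ → Prop) (b : ℝ) (I : Finset ι) (hB : ∀ i ∈ I, Pr C p (B i) ≤ b) :
    Pr C p (fun S => ∃ i ∈ I, B i S) ≤ I.card * b := by
  obtain ⟨_, hmono, hun, _, _⟩ := hPRL γ C p h0 h1
  induction I using Finset.induction_on with
  | empty =>
    have e : Pr C p (fun S => ∃ i ∈ (∅ : Finset ι), B i S) = 0 := by
      apply GPB_zero
      rintro S _ ⟨i, hi, _⟩
      exact absurd hi (Finset.notMem_empty i)
    rw [e, Finset.card_empty]
    simp
  | insert a I ha ih =>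
    have h2 := ih (fun i hi => hB i (Finset.mem_insert_of_mem hi))
    have h3 := hB a (Finset.mem_insert_self a I)
    have h4 : Pr C p (fun S => ∃ i ∈ insert a I, B i S) ≤
        Pr C p (fun S => B a S ∨ ∃ i ∈ I, B i S) := by
      apply hmono
      rintro S _ ⟨i, hi, hS⟩
      rcases Finset.mem_insert.1 hi with rfl | hi
      · exact Or.inl hS
      · exact Or.inr ⟨i, hi, hS⟩
    have h5 := hun (B a) (fun S => ∃ i ∈ I, B i S)
    rw [Finset.card_insert_of_notMem ha]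
    push_cast
    linarith

theorem GPB (hPRL : PRL_stmt) : GPB_stmt := by
  intro M M' p h0 h1
  set C : Finset (ℕ × ℕ) := Finset.range M ×ˢ Finset.range M' with hC
  obtain ⟨_, hmono, hun, hsub, _⟩ := hPRL (ℕ × ℕ) C p h0 h1
  set I1 : Finset (ℕ × ℕ × ℕ) := Finset.range M ×ˢ (Finset.range M' ×ˢ Finset.range M') with hI1
  set I2 : Finset ((ℕ × ℕ) × ℕ) := (Finset.range M ×ˢ Finset.range M) ×ˢ Finset.range M' with hI2
  have hpair : ∀ u v : ℕ × ℕ, Pr C p (fun S => u ∈ S ∧ v ∈ S ∧ u ≠ v) ≤ p ^ 2 := by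
    intro u v
    by_cases huv : u = v
    · have e : Pr C p (fun S => u ∈ S ∧ v ∈ S ∧ u ≠ v) = 0 := by
        apply GPB_zero
        rintro S _ ⟨_, _, h3⟩
        exact h3 huv
      rw [e]
      positivity
    · by_cases hc : u ∈ C ∧ v ∈ C
      · have h2 : ({u, v} : Finset (ℕ × ℕ)) ⊆ C := by
          intro z hz
          rcases Finset.mem_insert.1 hz with rfl | hz
          · exact hc.1
          · rw [Finset.mem_singleton.1 hz]
            exact hc.2
        have h3 := hsub {u, v} h2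
        rw [Finset.card_pair huv] at h3
        rw [← h3]
        apply hmono
        rintro S _ ⟨h4, h5, _⟩ z hz
        rcases Finset.mem_insert.1 hz with rfl | hz
        · exact h4
        · rw [Finset.mem_singleton.1 hz]
          exact h5
      · have e : Pr C p (fun S => u ∈ S ∧ v ∈ S ∧ u ≠ v) = 0 := by
          apply GPB_zero
          rintro S h4 ⟨h5, h6, _⟩
          exact hc ⟨h4 h5, h4 h6⟩
        rw [e]
        positivity
  have hA := GPB_union hPRL C p h0 h1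
    (fun (i : ℕ × ℕ × ℕ) S => (i.1, i.2.1) ∈ S ∧ (i.1, i.2.2) ∈ S ∧ (i.1, i.2.1) ≠ (i.1, i.2.2))
    (p ^ 2) I1 (fun i _ => hpair _ _)
  have hB := GPB_union hPRL C p h0 h1
    (fun (i : (ℕ × ℕ) × ℕ) S => (i.1.1, i.2) ∈ S ∧ (i.1.2, i.2) ∈ S ∧
      (i.1.1, i.2) ≠ (i.1.2, i.2)) (p ^ 2) I2 (fun i _ => hpair _ _)
  have c1 : (I1.card : ℝ) = M * (M' : ℝ) ^ 2 := by
    rw [hI1, Finset.card_product, Finset.card_product, Finset.card_range, Finset.card_range]
    push_cast
    ring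
  have c2 : (I2.card : ℝ) = (M : ℝ) ^ 2 * M' := by
    rw [hI2, Finset.card_product, Finset.card_product, Finset.card_range, Finset.card_range]
    push_cast
    ring
  have hle : Pr C p (fun S => ¬ GP S) ≤ Pr C p (fun S =>
      (∃ i ∈ I1, (i.1, i.2.1) ∈ S ∧ (i.1, i.2.2) ∈ S ∧ (i.1, i.2.1) ≠ (i.1, i.2.2)) ∨
      (∃ i ∈ I2, (i.1.1, i.2) ∈ S ∧ (i.1.2, i.2) ∈ S ∧ (i.1.1, i.2) ≠ (i.1.2, i.2))) := by
    apply hmono
    intro S hS hG
    unfold GP at hG
    push Not at hG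
    obtain ⟨u, hu, v, hv, huv, hne⟩ := hG
    have hu' := hS hu
    have hv' := hS hv
    rw [hC, Finset.mem_product] at hu' hv'
    rcases huv with h | h
    · left
      refine ⟨(u.1, u.2, v.2), ?_, hu, ?_, ?_⟩
      · rw [hI1, Finset.mem_product, Finset.mem_product]
        exact ⟨hu'.1, hu'.2, hv'.2⟩
      · show (u.1, v.2) ∈ S
        rw [h]
        exact hv
      · show (u.1, u.2) ≠ (u.1, v.2)
        intro h'
        apply hne
        exact Prod.ext h (Prod.mk.inj h').2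
    · right
      refine ⟨((u.1, v.1), u.2), ?_, hu, ?_, ?_⟩
      · rw [hI2, Finset.mem_product, Finset.mem_product]
        exact ⟨⟨hu'.1, hv'.1⟩, hu'.2⟩
      · show (v.1, u.2) ∈ S
        rw [h]
        exact hv
      · show (u.1, u.2) ≠ (v.1, u.2)
        intro h'
        apply hne
        exact Prod.ext (Prod.mk.inj h').1 h
  rw [c1] at hA
  rw [c2] at hB
  have h6 := hun (fun S => ∃ i ∈ I1, (i.1, i.2.1) ∈ S ∧ (i.1, i.2.2) ∈ S ∧
      (i.1, i.2.1) ≠ (i.1, i.2.2)) (fun S => ∃ i ∈ I2, (i.1.1, i.2) ∈ S ∧ (i.1.2, i.2) ∈ S ∧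
      (i.1.1, i.2) ≠ (i.1.2, i.2))
  nlinarith [hle, h6, hA, hB]

end Pool.Agent.DSW
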