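import Pool.Agent.helper71.DSW.SpecA

/-! # MP_a87880, row GRM -/

set_option autoImplicit false

namespace Pool.Agent.DSW

open Equiv Finset Function Pool.Agent.helper48.PP
open scoped ENNReal Classical

lemma GRM_val {L : ℕ} (b i : Fin L) : ((finProdFinEquiv (b, i) : Fin (L * L)) : ℕ) = i + L * b := rfl

lemma GRM_grid {L : ℕ} (b i : Fin L) : grid L (finProdFinEquiv (b, i)) = finProdFinEquiv (i, b) := by
  unfold grid
  simp

lemma GRM_le {L : ℕ} (b i i' : Fin L) (h : i ≤ i') :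
    (finProdFinEquiv (b, i) : Fin (L * L)) ≤ finProdFinEquiv (b, i') := by
  rw [Fin.le_def, GRM_val, GRM_val]
  exact Nat.add_le_add_right h _

lemma GRM_lt {L : ℕ} (b b' i i' : Fin L) (h : b < b') :
    (finProdFinEquiv (b, i) : Fin (L * L)) < finProdFinEquiv (b', i') := by
  rw [Fin.lt_def, GRM_val, GRM_val]
  have h1 : (b : ℕ) + 1 ≤ b' := h
  have h2 : (i : ℕ) < L := i.2
  have h3 : L * ((b : ℕ) + 1) ≤ L * b' := Nat.mul_le_mul_left _ h1
  have h4 : L * ((b : ℕ) + 1) = L * b + L := by ring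
  omega

lemma GRM_one (L n : ℕ) (w : Perm (Fin n)) (h : Contains w (grid L)) : Minor L (gra w) := by
  obtain ⟨f, hf, hw⟩ := h
  have hwle : ∀ s t, w (f s) ≤ w (f t) ↔ grid L s ≤ grid L t := by
    intro s t
    rw [← not_lt, ← not_lt, hw t s]
  have hz : ∀ r : Fin L, 0 < L := fun r => lt_of_le_of_lt (Nat.zero_le _) r.2
  refine ⟨fun r => f (finProdFinEquiv (r, ⟨0, hz r⟩)),
    fun r => f (finProdFinEquiv (r, ⟨L - 1, Nat.sub_lt (hz r) one_pos⟩)),
    fun r => w (f (finProdFinEquiv (⟨0, hz r⟩, r))),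
    fun r => w (f (finProdFinEquiv (⟨L - 1, Nat.sub_lt (hz r) one_pos⟩, r))), ?_, ?_, ?_, ?_, ?_⟩
  · intro r
    exact hf.monotone (GRM_le _ _ _ (Nat.zero_le _))
  · intro r s hrs
    exact hf (GRM_lt _ _ _ _ hrs)
  · intro r
    have h1 := (hwle (finProdFinEquiv (⟨0, hz r⟩, r))
      (finProdFinEquiv (⟨L - 1, Nat.sub_lt (hz r) one_pos⟩, r))).2 (by
        rw [GRM_grid, GRM_grid]
        exact GRM_le _ _ _ (Nat.zero_le _))
    exact h1
  · intro r s hrs
    have h1 := (hw (finProdFinEquiv (⟨L - 1, Nat.sub_lt (hz r) one_pos⟩, r))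
      (finProdFinEquiv (⟨0, hz s⟩, s))).2 (by
        rw [GRM_grid, GRM_grid]
        exact GRM_lt _ _ _ _ hrs)
    exact h1
  · intro r s
    refine ⟨((f (finProdFinEquiv (r, s)) : ℕ), (w (f (finProdFinEquiv (r, s))) : ℕ)),
      ⟨f (finProdFinEquiv (r, s)), rfl⟩, ?_, ?_, ?_, ?_⟩
    · exact hf.monotone (GRM_le _ _ _ (Nat.zero_le _))
    · exact hf.monotone (GRM_le _ _ _ (Nat.le_sub_one_of_lt s.2))
    · have h1 := (hwle (finProdFinEquiv (⟨0, hz s⟩, s)) (finProdFinEquiv (r, s))).2 (by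
        rw [GRM_grid, GRM_grid]
        exact GRM_le _ _ _ (Nat.zero_le _))
      exact h1
    · have h1 := (hwle (finProdFinEquiv (r, s))
        (finProdFinEquiv (⟨L - 1, Nat.sub_lt (hz s) one_pos⟩, s))).2 (by
        rw [GRM_grid, GRM_grid]
        exact GRM_le _ _ _ (Nat.le_sub_one_of_lt r.2))
      exact h1

lemma GRM_mono {l L : ℕ} (h : l ≤ L) (S : Set (ℕ × ℕ)) (hM : Minor L S) : Minor l S := by
  obtain ⟨a, b, c, d, h1, h2, h3, h4, h5⟩ := hM
  exact ⟨fun r => a (Fin.castLE h r), fun r => b (Fin.castLE h r), fun r => c (Fin.castLE h r),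
    fun r => d (Fin.castLE h r), fun r => h1 _, fun r s hrs => h2 _ _ hrs, fun r => h3 _,
    fun r s hrs => h4 _ _ hrs, fun r s => h5 _ _⟩

theorem GRM : GRM_stmt := by
  refine ⟨GRM_one, ?_⟩
  intro l L n hl
  unfold NM avCount
  apply Finset.card_le_card
  intro w hw
  rw [Finset.mem_filter] at hw ⊢
  refine ⟨hw.1, fun hc => hw.2 ?_⟩
  exact GRM_mono hl _ (GRM_one L n w hc)

end Pool.Agent.DSW
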