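import Pool.Agent.helper71.DSW.SpecA

/-! # MP_a87880, row LBL -/

set_option autoImplicit false

namespace Pool.Agent.DSW

open Equiv Finset Function Pool.Agent.helper48.PP
open scoped ENNReal Classical

theorem LBL : LBL_stmt := by
  intro α _ _ Q P hQ
  have h1 : (Finset.univ.filter fun F : α → Fin Q => ∀ a ∈ P, ((F a : ℕ)) ≠ 0) =
      Fintype.piFinset (fun a => if a ∈ P then Finset.univ.filter (fun v : Fin Q => (v : ℕ) ≠ 0)
        else Finset.univ) := by
    ext F
    rw [Finset.mem_filter, Fintype.mem_piFinset]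
    constructor
    · rintro ⟨_, h⟩ a
      split_ifs with ha
      · exact Finset.mem_filter.2 ⟨Finset.mem_univ _, h a ha⟩
      · exact Finset.mem_univ _
    · intro h
      refine ⟨Finset.mem_univ _, ?_⟩
      intro a ha
      have h2 := h a
      rw [if_pos ha] at h2
      exact (Finset.mem_filter.1 h2).2
  have h2 : (Finset.univ.filter (fun v : Fin Q => (v : ℕ) ≠ 0)).card = Q - 1 := by
    have e : (Finset.univ.filter (fun v : Fin Q => (v : ℕ) ≠ 0)) =
        Finset.univ.erase (⟨0, hQ⟩ : Fin Q) := by
      ext v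
      rw [Finset.mem_filter, Finset.mem_erase]
      constructor
      · rintro ⟨_, h⟩
        exact ⟨fun h' => h (by rw [h']), Finset.mem_univ _⟩
      · rintro ⟨h, _⟩
        exact ⟨Finset.mem_univ _, fun h' => h (Fin.ext h')⟩
    rw [e, Finset.card_erase_of_mem (Finset.mem_univ _), Finset.card_univ, Fintype.card_fin]
  rw [h1, Fintype.card_piFinset]
  have h3 : ∀ a : α, (if a ∈ P then Finset.univ.filter (fun v : Fin Q => (v : ℕ) ≠ 0)
        else Finset.univ).card = if a ∈ P then Q - 1 else Q := by
    intro a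
    split_ifs
    · exact h2
    · rw [Finset.card_univ, Fintype.card_fin]
  rw [Finset.prod_congr rfl (fun a _ => h3 a)]
  have h4 : Q ^ P.card = ∏ a : α, if a ∈ P then Q else 1 := by
    rw [Finset.prod_ite_mem, Finset.univ_inter, Finset.prod_const]
  have h5 : (Q - 1) ^ P.card = ∏ a : α, if a ∈ P then Q - 1 else 1 := by
    rw [Finset.prod_ite_mem, Finset.univ_inter, Finset.prod_const]
  have h6 : Q ^ Fintype.card α = ∏ _a : α, Q := by
    rw [Finset.prod_const, Finset.card_univ]
  rw [h4, h5, h6, ← Finset.prod_mul_distrib, ← Finset.prod_mul_distrib]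
  apply Finset.prod_congr rfl
  intro a _
  split_ifs
  · rfl
  · rw [mul_one, one_mul]

end Pool.Agent.DSW
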