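import Pool.Agent.helper71.DSW.SpecC

/-! # MP_a87880, row LOW -/

set_option autoImplicit false

namespace Pool.Agent.DSW

open Equiv Finset Function Pool.Agent.helper48.PP
open scoped ENNReal Classical

theorem LOW (hAVG : AVG_stmt) (hFST : FST_stmt) (hKAP : KAP_stmt) (hPOS : POS_stmt) : LOW_stmt := by
  intro L H p hH h0 h1
  refine le_trans ?_ (hAVG L H p hH h0 h1)
  have e : ENNReal.ofReal (((H : ℝ) ^ 2 * p) ^ (L * L)) =
      (H : ℝ≥0∞) ^ (2 * (L * L)) * ENNReal.ofReal (p ^ (L * L)) := by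
    rw [mul_pow, ENNReal.ofReal_mul (by positivity), ← pow_mul,
      ENNReal.ofReal_pow (Nat.cast_nonneg H), ENNReal.ofReal_natCast]
  rw [e, mul_assoc]
  gcongr
  unfold Ex
  rw [← ENNReal.tsum_mul_left]
  apply ENNReal.tsum_le_tsum
  intro x
  have h2 := hFST L (len (ga x)) (len (gc x)) (arr (ga x) (gc x)) p h0 h1 (hPOS.2.1 L _ _)
  have h3 := hKAP L (ga x) (gc x) p h0 h1
  have h4 : p ^ (L * L) * kap p (ga x) (gc x) ≤ Pr (Dom (len (ga x)) (len (gc x))) p
      (First (len (ga x)) (len (gc x)) (arr (ga x) (gc x))) :=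
    le_trans (mul_le_mul_of_nonneg_left h3 (pow_nonneg h0 _)) h2
  have h5 : ENNReal.ofReal (p ^ (L * L)) * ENNReal.ofReal (kap p (ga x) (gc x)) ≤
      ENNReal.ofReal (Pr (Dom (len (ga x)) (len (gc x))) p
      (First (len (ga x)) (len (gc x)) (arr (ga x) (gc x)))) := by
    rw [← ENNReal.ofReal_mul (pow_nonneg h0 _)]
    exact ENNReal.ofReal_le_ofReal h4
  calc ENNReal.ofReal (p ^ (L * L)) * ((∏ i, wt H (x i)) * ENNReal.ofReal (kap p (ga x) (gc x)))
      = (∏ i, wt H (x i)) * (ENNReal.ofReal (p ^ (L * L)) *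
          ENNReal.ofReal (kap p (ga x) (gc x))) := by ring
    _ ≤ _ := by gcongr

end Pool.Agent.DSW
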