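import Pool.Agent.helper71.DSW.SpecB

/-! # MP_a87880, row PRB -/

set_option autoImplicit false

namespace Pool.Agent.DSW

open Equiv Finset Function Pool.Agent.helper48.PP
open scoped ENNReal Classical

/-- the set of a boolean matrix -/
noncomputable def PRB_S {M M' : ℕ} (w : Fin M → Fin M' → Bool) : Finset (ℕ × ℕ) :=
  (Finset.univ.filter (fun z : Fin M × Fin M' => w z.1 z.2 = true)).image
    fun z => ((z.1 : ℕ), (z.2 : ℕ))

lemma PRB_inj (M M' : ℕ) : Injective (fun z : Fin M × Fin M' => ((z.1 : ℕ), (z.2 : ℕ))) := by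
  intro z z' h
  have h1 : (z.1 : ℕ) = z'.1 := congrArg Prod.fst h
  have h2 : (z.2 : ℕ) = z'.2 := congrArg Prod.snd h
  exact Prod.ext (Fin.ext h1) (Fin.ext h2)

lemma PRB_mem {M M' : ℕ} (w : Fin M → Fin M' → Bool) (x : Fin M) (y : Fin M') :
    ((x : ℕ), (y : ℕ)) ∈ PRB_S w ↔ w x y = true := by
  unfold PRB_S
  rw [Finset.mem_image]
  constructor
  · rintro ⟨z, hz, hzz⟩
    have h1 := PRB_inj M M' (a₁ := z) (a₂ := (x, y)) hzz
    have h2 := (Finset.mem_filter.1 hz).2
    rw [h1] at h2
    exact h2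
  · intro h
    exact ⟨(x, y), Finset.mem_filter.2 ⟨Finset.mem_univ _, h⟩, rfl⟩

lemma PRB_prod {M M' : ℕ} (p : ℝ) (w : Fin M → Fin M' → Bool) :
    ∏ x, ∏ y, mu p (w x y) = p ^ (PRB_S w).card * (1 - p) ^ (M * M' - (PRB_S w).card) := by
  have h1 : (PRB_S w).card =
      (Finset.univ.filter (fun z : Fin M × Fin M' => w z.1 z.2 = true)).card := by
    unfold PRB_S
    exact Finset.card_image_of_injective _ (PRB_inj M M')
  have h2 : (Finset.univ.filter (fun z : Fin M × Fin M' => w z.1 z.2 = true)).card +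
      (Finset.univ.filter (fun z : Fin M × Fin M' => ¬ w z.1 z.2 = true)).card = M * M' := by
    rw [Finset.card_filter_add_card_filter_not, Finset.card_univ, Fintype.card_prod,
      Fintype.card_fin, Fintype.card_fin]
  have h3 : M * M' - (PRB_S w).card =
      (Finset.univ.filter (fun z : Fin M × Fin M' => ¬ w z.1 z.2 = true)).card := by omega
  rw [h3, h1, ← Fintype.prod_prod_type' (fun x y => mu p (w x y))]
  unfold mu
  rw [Finset.prod_ite, Finset.prod_const, Finset.prod_const]

theorem PRB : PRB_stmt := by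
  intro M M' p A
  unfold Pr
  rw [Finset.sum_filter]
  symm
  refine Finset.sum_bij (fun w _ => PRB_S w) ?_ ?_ ?_ ?_
  · intro w _
    rw [Finset.mem_powerset]
    intro z hz
    unfold PRB_S at hz
    rw [Finset.mem_image] at hz
    obtain ⟨z', _, rfl⟩ := hz
    rw [Finset.mem_product, Finset.mem_range, Finset.mem_range]
    exact ⟨z'.1.2, z'.2.2⟩
  · intro w _ w' _ h
    funext x y
    have h1 := PRB_mem w x y
    rw [h, PRB_mem w' x y] at h1
    exact (Bool.eq_iff_iff.2 h1).symm
  · intro S hS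
    rw [Finset.mem_powerset] at hS
    refine ⟨fun x y => decide (((x : ℕ), (y : ℕ)) ∈ S), Finset.mem_univ _, ?_⟩
    ext z
    constructor
    · intro hz
      unfold PRB_S at hz
      rw [Finset.mem_image] at hz
      obtain ⟨z', hz', rfl⟩ := hz
      exact of_decide_eq_true (Finset.mem_filter.1 hz').2
    · intro hz
      have h1 := hS hz
      rw [Finset.mem_product, Finset.mem_range, Finset.mem_range] at h1
      have h2 := (PRB_mem (fun (x : Fin M) (y : Fin M') => decide (((x : ℕ), (y : ℕ)) ∈ S))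
        ⟨z.1, h1.1⟩ ⟨z.2, h1.2⟩).2 (decide_eq_true hz)
      exact h2
  · intro w _
    have hc : (Finset.range M ×ˢ Finset.range M').card = M * M' := by
      rw [Finset.card_product, Finset.card_range, Finset.card_range]
    rw [hc, PRB_prod]
    show _ * (if A (PRB_S w) then (1 : ℝ) else 0) = _
    split_ifs
    · rw [mul_one]
    · rw [mul_zero]

end Pool.Agent.DSW
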